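import Mathlib
import Pool.Agent.R83.DisjCliques

/-!
# MP_4c03a7_co — Turán numbers of `k` vertex-disjoint cliques for all `n`

A full positive answer to Q1, in fact without the hypotheses `p ≥ 3`, `k ≥ 5` and
`(k-1)p - k² + 3k - 3 ≥ 0`.

* `extremalNumber n H` is Mathlib's Turán number: the largest number of edges of an
  `H`-free simple graph on `Fin n`.
* `kK k p` is the disjoint union of `k` copies of `K_p`, on the vertex set `Fin k × Fin p`.
* `turanGraph m r` is Mathlib's Turán graph `T_{m,r}`.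
* `join G H` is the join `G ∨ H`, on the vertex set `V ⊕ W`.
-/

namespace Pool.Agent.Results.MP_4c03a7_co.DisjointCliques

open SimpleGraph Pool.R83.DisjCliques

/-- The graph `K_{k-1} ∨ T_{n-k+1,p-1}` (used for `k ≥ 1` and `n ≥ k`). -/
abbrev extGraph (n k p : ℕ) : SimpleGraph (Fin (k - 1) ⊕ Fin (n - k + 1)) :=
  join (⊤ : SimpleGraph (Fin (k - 1))) (turanGraph (n - k + 1) (p - 1))

open scoped Classical in
/-- The formula of Q1 for the pair `(p,k)`, for all `n ≥ kp + k² - 3k + 1`. -/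
def FormulaHolds (p k : ℕ) : Prop :=
  ∀ n : ℕ,
    ((k : ℤ) * p + k ^ 2 - 3 * k + 1 ≤ n → (n : ℤ) ≤ (2 * k - 1) * p - 2 →
      (extremalNumber n (kK k p) : ℤ) = n.choose 2 - (2 * k - 1) * (n - k * p + 1)) ∧
    ((2 * (k : ℤ) - 1) * p - 1 ≤ n →
      extremalNumber n (kK k p) = (extGraph n k p).edgeFinset.card ∧
      extremalNumber n (kK k p) =
        (k - 1).choose 2 + (k - 1) * (n - k + 1) +
          (turanGraph (n - k + 1) (p - 1)).edgeFinset.card)

lemma two_mul_choose_two (n : ℕ) : (2 * n.choose 2 : ℤ) = n * (n - 1) := by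
  have h3 := Nat.choose_two_right n
  rcases Nat.eq_zero_or_pos n with rfl | hN
  · simp
  · have h5 := Nat.div_mul_cancel (Nat.even_mul_pred_self n).two_dvd
    rw [← h3] at h5
    have h6 : ((n.choose 2 * 2 : ℕ) : ℤ) = ((n * (n - 1) : ℕ) : ℤ) := by rw [h5]
    push_cast [Nat.cast_sub hN] at h6
    linarith

lemma range_one (p k n : ℕ) (hk : 1 ≤ k)
    (h1 : (k : ℤ) * p + k ^ 2 - 3 * k + 1 ≤ n) (h2 : (n : ℤ) ≤ (2 * k - 1) * p - 2) :
    (extremalNumber n (kK k p) : ℤ) = n.choose 2 - (2 * k - 1) * (n - k * p + 1) := by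
  have hk1 : (1 : ℤ) ≤ k := by exact_mod_cast hk
  obtain ⟨K, rfl⟩ : ∃ K, k = K + 1 := ⟨k - 1, by omega⟩
  -- `t = n - kp + 1 ≥ 0`
  have ht0 : 0 ≤ (n : ℤ) - (K + 1) * p + 1 := by
    push_cast at h1
    rcases Nat.eq_zero_or_pos K with rfl | hK
    · push_cast at h1 ⊢
      linarith
    · have : (1 : ℤ) ≤ K := by exact_mod_cast hK
      nlinarith
  obtain ⟨t, ht⟩ := Int.eq_ofNat_of_zero_le ht0
  -- `K ≥ 1`
  have hK : 1 ≤ K := by
    by_contra hK
    have : K = 0 := by omega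
    subst this
    push_cast at h1 h2 ht0
    linarith
  have hK1 : (1 : ℤ) ≤ K := by exact_mod_cast hK
  push_cast at h1 h2
  have ht1 : (K : ℤ) * (K - 1) ≤ t := by
    rw [← ht]
    linarith
  have ht2 : (t : ℤ) ≤ K * p - 1 := by
    rw [← ht]
    linarith
  set P := t / K with hP
  set y := t % K with hy
  have hdiv : K * P + y = t := Nat.div_add_mod t K
  have hyK : y < K := Nat.mod_lt _ hK
  have hdivZ : (K : ℤ) * P + y = t := by exact_mod_cast hdiv
  -- `P ≥ K - 1 ≥ y`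
  have hPK : K - 1 ≤ P := by
    rw [hP, Nat.le_div_iff_mul_le hK]
    have : (((K - 1) * K : ℕ) : ℤ) ≤ t := by
      push_cast [Nat.cast_sub hK]
      linarith
    exact_mod_cast this
  have hyP : y ≤ P := by omega
  -- `P < p`
  have hPp : P < p := by
    by_contra hcon
    have h3 : p ≤ P := by omega
    have h4 : (K : ℤ) * p ≤ K * P := by
      have : (p : ℤ) ≤ P := by exact_mod_cast h3
      exact mul_le_mul_of_nonneg_left this (by linarith)
    have h5 : (0 : ℤ) ≤ y := by positivity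
    linarith
  have hs : (K + 1) * P + 1 ≤ (K + 1) * p := by nlinarith
  obtain ⟨s, hs'⟩ : ∃ s, (K + 1) * P + 1 + s = (K + 1) * p := ⟨_, Nat.add_sub_cancel' hs⟩
  obtain ⟨z, hz⟩ : ∃ z, y + z = P := ⟨_, Nat.add_sub_cancel' hyP⟩
  have hsZ : ((K : ℤ) + 1) * P + 1 + s = (K + 1) * p := by exact_mod_cast hs'
  have hzZ : (y : ℤ) + z = P := by exact_mod_cast hz
  have hn : n = (2 * K + 1 + 1) * y + (2 * K + 1) * z + s := by
    have : (n : ℤ) = (2 * K + 1 + 1) * y + (2 * K + 1) * z + s := by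
      have e1 : (n : ℤ) = t + (K + 1) * p - 1 := by linarith
      rw [e1, ← hsZ, ← hdivZ, ← hzZ]
      ring
    exact_mod_cast this
  have hfree : (K + 1) * (y + z) + s < (K + 1) * p := by
    rw [hz]; omega
  obtain ⟨hpos, hlow⟩ := lower_bound (K + 1) p y z s (2 * K + 1) n hfree hn
  have heq : (n : ℤ) ^ 2 - ((y : ℤ) * (((2 * K + 1 : ℕ) : ℤ) + 1) ^ 2 +
      z * ((2 * K + 1 : ℕ) : ℤ) ^ 2 + s) = n * (n - 1) - 2 * (2 * K + 1) * t := by
    have e1 : (n : ℤ) = (2 * K + 1 + 1) * y + (2 * K + 1) * z + s := by exact_mod_cast hn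
    have e2 : (s : ℤ) = n - (2 * K + 1 + 1) * y - (2 * K + 1) * z := by linarith
    rw [e2, ← hdivZ, ← hzZ]
    push_cast
    ring
  rw [heq] at hpos hlow
  have hupp := two_mul_extremal_le n p (K + 1) (by omega) (2 * K + 1) (by push_cast; linarith)
  have heq2 : (n : ℤ) * (n - 1) - (2 * (2 * (K : ℤ) + 1) * ((n : ℤ) - ((K + 1 : ℕ) : ℤ) + 1) -
      ((p : ℤ) - 1) * ((2 * (K : ℤ) + 1) * ((2 * (K : ℤ) + 1) + 1))) =
      n * (n - 1) - 2 * (2 * K + 1) * t := by
    rw [← ht]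
    push_cast
    ring
  rw [heq2] at hupp
  have h6 := hupp hpos
  have h7 := two_mul_choose_two n
  push_cast
  have h8 : (n : ℤ) - (K + 1) * p + 1 = t := ht
  rw [h8]
  linarith

lemma range_two (p k n : ℕ) (hp : 2 ≤ p) (hk : 1 ≤ k)
    (h1 : (2 * (k : ℤ) - 1) * p - 1 ≤ n) :
    extremalNumber n (kK k p) =
        (k - 1).choose 2 + (k - 1) * (n - k + 1) +
          (turanGraph (n - k + 1) (p - 1)).edgeFinset.card := by
  obtain ⟨K, rfl⟩ : ∃ K, k = K + 1 := ⟨k - 1, by omega⟩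
  obtain ⟨r, rfl⟩ : ∃ r, p = r + 1 := ⟨p - 1, by omega⟩
  have hr : 1 ≤ r := by omega
  have hr1 : (1 : ℤ) ≤ r := by exact_mod_cast hr
  push_cast at h1
  have hKn : K + 1 ≤ n := by
    have : (K : ℤ) + 1 ≤ n := by nlinarith
    exact_mod_cast this
  obtain ⟨N, hN⟩ : ∃ N, n = N + K := ⟨n - K, by omega⟩
  have hN' : n - (K + 1) + 1 = N := by omega
  rw [hN']
  simp only [Nat.add_sub_cancel]
  set q := N / r with hq
  set y := N % r with hy
  have hdiv : r * q + y = N := Nat.div_add_mod N r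
  have hyr : y < r := Nat.mod_lt _ hr
  obtain ⟨z, hz⟩ : ∃ z, y + z = r := ⟨_, Nat.add_sub_cancel' hyr.le⟩
  have hdivZ : (r : ℤ) * q + y = N := by exact_mod_cast hdiv
  have hzZ : (y : ℤ) + z = r := by exact_mod_cast hz
  have hNZ : (n : ℤ) = N + K := by exact_mod_cast hN
  have hcq : 2 * K + 1 ≤ q := by
    rw [hq, Nat.le_div_iff_mul_le hr]
    have : ((2 * K + 1) * r : ℤ) ≤ N := by nlinarith
    exact_mod_cast this
  have hcqZ : 2 * (K : ℤ) + 1 ≤ q := by exact_mod_cast hcq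
  have hn : n = (q + 1) * y + q * z + K := by
    have : (n : ℤ) = (q + 1) * y + q * z + K := by
      rw [hNZ, ← hdivZ, ← hzZ]; ring
    exact_mod_cast this
  have hfree : (K + 1) * (y + z) + K < (K + 1) * (r + 1) := by
    rw [hz]; nlinarith
  obtain ⟨hpos, hlow⟩ := lower_bound (K + 1) (r + 1) y z K q n hfree hn
  have heq : (n : ℤ) ^ 2 - ((y : ℤ) * (q + 1) ^ 2 + z * q ^ 2 + K) =
      n * (n - 1) - (2 * q * N - r * (q * (q + 1))) := by
    rw [hNZ, ← hdivZ, ← hzZ]; ring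
  rw [heq] at hpos hlow
  have hupp := two_mul_extremal_le n (r + 1) (K + 1) (by omega) q (by push_cast; linarith)
  have heq2 : (n : ℤ) * (n - 1) - (2 * (q : ℤ) * ((n : ℤ) - ((K + 1 : ℕ) : ℤ) + 1) -
      (((r + 1 : ℕ) : ℤ) - 1) * ((q : ℤ) * ((q : ℤ) + 1))) =
      n * (n - 1) - (2 * q * N - r * (q * (q + 1))) := by
    rw [hNZ]; push_cast; ring
  rw [heq2] at hupp
  have h6 := hupp hpos
  have h7 := two_mul_choose_two K
  have h8 := two_mul_turan r hr N
  rw [← hq] at h8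
  have h9 : (2 * extremalNumber n (kK (K + 1) (r + 1)) : ℤ) =
      2 * ((K.choose 2 + K * N + (turanGraph N r).edgeFinset.card : ℕ) : ℤ) := by
    push_cast
    rw [mul_add, mul_add, h7, h8]
    have e3 : (n : ℤ) * (n - 1) = K * (K - 1) + 2 * (K * N) + N * (N - 1) := by
      rw [hNZ]; ring
    linarith
  have h10 : (extremalNumber n (kK (K + 1) (r + 1)) : ℤ) =
      ((K.choose 2 + K * N + (turanGraph N r).edgeFinset.card : ℕ) : ℤ) := by linarith
  exact_mod_cast h10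

/-- **Main theorem.** The conjectured formula for `ex(n, kK_p)` holds for all `p ≥ 3`, `k ≥ 5` with
`(k-1)p - k² + 3k - 3 ≥ 0` (this is Q1); more generally it holds for all `p ≥ 2` and `k ≥ 1`. -/
theorem result :
    (∀ p k : ℕ, 3 ≤ p → 5 ≤ k → (0 : ℤ) ≤ ((k : ℤ) - 1) * p - k ^ 2 + 3 * k - 3 →
      FormulaHolds p k) ∧
    (∀ p k : ℕ, 2 ≤ p → 1 ≤ k → FormulaHolds p k) := by
  have main : ∀ p k : ℕ, 2 ≤ p → 1 ≤ k → FormulaHolds p k := by
    classical
    intro p k hp hk n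
    refine ⟨range_one p k n hk, fun h => ⟨?_, range_two p k n hp hk h⟩⟩
    rw [range_two p k n hp hk h]
    have h1 := card_edges_join (⊤ : SimpleGraph (Fin (k - 1))) (turanGraph (n - k + 1) (p - 1))
    have h2 := card_edgeFinset_top_eq_card_choose_two (V := Fin (k - 1))
    rw [Fintype.card_fin, Fintype.card_fin] at h1
    rw [Fintype.card_fin] at h2
    unfold extGraph
    rw [← h2]
    convert h1.symm
  exact ⟨fun p k hp hk _ => main p k (by omega) (by omega), main⟩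

end Pool.Agent.Results.MP_4c03a7_co.DisjointCliques
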